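import Pool.Agent.Run7.h318.Sys

/-!
# Modular forms of slope twelve which do not vanish at stable curves with rational components

The statement is about a finite multigraph with edges `e : E` from `src e` to `tgt e`, a basis `B`
of its lattice of integral flows (its first homology), and a complex matrix `A`.  Let `C` be a
stable curve of genus `g` all of whose components are rational, and take for the multigraph its dual
graph.  The period matrices of the curves near `C` have the form `∑ₑ sₑ vₑ vₑᵀ + A'` with
`vₑ = (B i e)ᵢ`, `Im sₑ → ∞` and `A' → A`, where `A` depends on `C`.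
-/

set_option autoImplicit false

open Filter Topology

namespace Pool.Agent.Results.MP_6febbd_ag.RationalComponents

open Run7.h318 Run7.h433.Slope

/-- For every finite multigraph, every basis `B` of its lattice of flows and every matrix `A` there
are `m ≥ 1`, a Siegel modular form `F` of degree `g`, level one and weight `12 m`, vanishing to
order at least `m` along the boundary, and a number `L ≠ 0` such that
`F (∑ₑ sₑ vₑ vₑᵀ + A') * exp (- 2 π i m ∑ₑ sₑ) → L`, the last sum being over the edges with
`vₑ ≠ 0` (the edges which are not bridges), whenever `Im sₑ → ∞` for all `e` and `A' → A`. -/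
theorem result {g : ℕ} {V E : Type} [Fintype E] [DecidableEq V] (src tgt : E → V)
    (B : Fin g → E → ℤ) (hflow : ∀ i, IsFlow src tgt (B i))
    (hbasis : ∀ z : E → ℤ, IsFlow src tgt z →
      ∃! n : Fin g → ℤ, z = fun e => ∑ i, n i * B i e)
    (A : Matrix (Fin g) (Fin g) ℂ) :
    ∃ m : ℕ, 1 ≤ m ∧ ∃ F : Matrix (Fin g) (Fin g) ℂ → ℂ,
      IsForm g (12 * (m : ℤ)) F ∧ VanishesTo m F ∧ ∃ L : ℂ, L ≠ 0 ∧
        ∀ (ι : Type) (l : Filter ι) (s : ι → E → ℂ) (A' : ι → Matrix (Fin g) (Fin g) ℂ),
          (∀ e, Tendsto (fun k => (s k e).im) l atTop) →
          (∀ i j, Tendsto (fun k => A' k i j) l (𝓝 (A i j))) →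
          Tendsto (fun k =>
            F (Matrix.of fun i j => ∑ e, s k e * (B i e : ℂ) * (B j e : ℂ) + A' k i j) *
              Complex.exp (-(2 * Real.pi * Complex.I * m *
                ∑ e, open Classical in if ∃ i, B i e ≠ 0 then s k e else 0))) l (𝓝 L) := by
  classical
  have hval : ∀ x : Fin g → ℤ, IsFlow src tgt (val B x) := by
    intro x v
    unfold val
    rw [Finset.sum_comm, Finset.sum_comm (s := Finset.univ.filter fun e => tgt e = v)]
    refine Finset.sum_congr rfl fun i _ => ?_
    rw [← Finset.mul_sum, ← Finset.mul_sum, hflow i v]
  have hinj : ∀ x y : Fin g → ℤ, val B x = val B y → x = y := by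
    intro x y hxy
    obtain ⟨n, -, hu⟩ := hbasis _ (hval x)
    rw [hu x rfl, hu y hxy]
  have hsys : Sys B :=
    { inj := by
        intro x hx
        refine hinj x 0 ?_
        funext e
        rw [hx e]
        simp [val]
      base := by
        intro a
        obtain ⟨z, hz, hz1, hz2⟩ := exists_orient' (val B a) (hval a)
        obtain ⟨n, hn, -⟩ := hbasis z hz
        have hn' : val B n = z := hn.symm
        have h1 : IsFlow src tgt (fun e => val B (n - a) e / 2) := by
          intro v
          have h2 := hval (n - a) v
          have h3 : ∀ e, val B (n - a) e = 2 * (val B (n - a) e / 2) := fun e => by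
            have h4 := hz2 e
            have h5 := val_sub B n a e
            rw [hn'] at h5
            omega
          rw [Finset.sum_congr rfl fun e _ => h3 e,
            Finset.sum_congr (s₁ := Finset.univ.filter fun e => tgt e = v) rfl fun e _ => h3 e,
            ← Finset.mul_sum, ← Finset.mul_sum] at h2
          show ∑ e with src e = v, (val B (n - a) e / 2) = ∑ e with tgt e = v, (val B (n - a) e / 2)
          omega
        obtain ⟨m, hm, -⟩ := hbasis _ h1
        refine ⟨m, fun e => ?_⟩
        have h2 : val B m e = val B (n - a) e / 2 := (congrFun hm e).symm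
        have h3 := hz1 e
        have h4 := hz2 e
        have h5 := val_sub B n a e
        rw [hn'] at h5
        have h6 := val_two_mul_add B m a e
        have h7 : val B (2 * m + a) e = z e := by omega
        rw [h7]
        exact h3 }
  exact hsys.exists_form A

end Pool.Agent.Results.MP_6febbd_ag.RationalComponents
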